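import Pool.Agent.Lib.MP_b2ebfc_lc.Iface

/-!
# Module SIZEMAT: sizes of the parts and the biadjacency matrix
-/

set_option autoImplicit false

namespace Pool.Agent.Lib.MP_b2ebfc_lc.H65

open Finset Pool.Agent.Lib.MP_b2ebfc_lc

/-- the rank of an element in a set -/
def rk {n : ℕ} (S : Finset (Fin n)) (v : Fin n) : ℕ := (S.filter fun y => y < v).card

theorem rk_emb {n a : ℕ} (S : Finset (Fin n)) (h : S.card = a) (i : Fin a) :
    rk S (S.orderEmbOfFin h i) = i := by
  unfold rk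
  have h1 : S.filter (fun y => y < S.orderEmbOfFin h i) =
      ((univ : Finset (Fin a)).filter fun j => j < i).map (S.orderEmbOfFin h).toEmbedding := by
    ext y
    simp only [mem_filter, mem_map, mem_univ, true_and, RelEmbedding.coe_toEmbedding]
    constructor
    · rintro ⟨hy, hlt⟩
      have : y ∈ Set.range (S.orderEmbOfFin h) := by
        rw [range_orderEmbOfFin]; exact hy
      obtain ⟨j, rfl⟩ := this
      exact ⟨j, (S.orderEmbOfFin h).lt_iff_lt.1 hlt, rfl⟩
    · rintro ⟨j, hj, rfl⟩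
      exact ⟨orderEmbOfFin_mem S h j, (S.orderEmbOfFin h).lt_iff_lt.2 hj⟩
  rw [h1, card_map]
  have h2 : (univ.filter fun j : Fin a => j < i) = Finset.Iio i := by
    ext j; simp
  rw [h2, Fin.card_Iio]

theorem eq_emb_iff {n a : ℕ} (S : Finset (Fin n)) (h : S.card = a) (i : Fin a) (v : Fin n) :
    v = S.orderEmbOfFin h i ↔ v ∈ S ∧ rk S v = i := by
  constructor
  · rintro rfl
    exact ⟨orderEmbOfFin_mem S h i, rk_emb S h i⟩
  · rintro ⟨hv, hr⟩
    have : v ∈ Set.range (S.orderEmbOfFin h) := by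
      rw [range_orderEmbOfFin]; exact hv
    obtain ⟨j, rfl⟩ := this
    rw [rk_emb] at hr
    rw [Fin.ext hr]

theorem rk_le {n : ℕ} (S : Finset (Fin n)) (v : Fin n) : rk S v ≤ n := by
  unfold rk
  exact (card_le_univ _).trans (by simp)

theorem sq_lt_wordLen (n : ℕ) : n ^ 2 < 2 ^ wordLen n := by
  have h1 : n ^ 2 < 2 ^ (n ^ 2) := Nat.lt_two_pow_self
  refine h1.trans_le (Nat.pow_le_pow_right (by norm_num) ?_)
  unfold wordLen
  have h2 : n ^ 2 ≤ (n + 2) ^ 2 := Nat.pow_le_pow_left (by omega) 2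
  have h3 : (n + 2) ^ 2 ≤ (n + 2) ^ 4 := Nat.pow_le_pow_right (by omega) (by norm_num)
  omega

theorem emod_word {w : ℕ} {x : ℤ} {N : ℕ} (hN : N < 2 ^ w) (h0 : 0 ≤ x) (h : x ≤ N) :
    x % 2 ^ w = x := by
  refine Int.emod_eq_of_lt h0 (lt_of_le_of_lt h ?_)
  exact_mod_cast hN

/-- What is known after `sizesP`. -/
structure Sz (n : ℕ) (s t : St) (A : Finset (Fin n)) (c : ℤ) : Prop where
  mem : ∀ v, v ∈ A ↔ s.m 1 (v : ℕ) = c
  c12 : c = 1 ∨ c = 2
  le : A.card ≤ Aᶜ.card
  r0 : t.r 0 = n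
  r3 : t.r 3 = A.card
  r4 : t.r 4 = Aᶜ.card
  r9 : t.r 9 = c
  m0 : t.m 0 = s.m 0
  m1 : t.m 1 = s.m 1
  m2 : ∀ v : Fin n, t.m 2 (v : ℕ) = (univ.filter fun y : Fin n =>
    y < v ∧ s.m 1 (y : ℕ) = s.m 1 (v : ℕ)).card

theorem sizes_run (w n : ℕ) (s : St) (hw : w = wordLen n) (h0 : s.r 0 = n)
    (hc : ∀ v : Fin n, s.m 1 (v : ℕ) = 1 ∨ s.m 1 (v : ℕ) = 2) :
    ∃ (A : Finset (Fin n)) (c : ℤ), Sz n s (sizesP.run w s) A c := by
  have hn2 : n ^ 2 < 2 ^ w := by rw [hw]; exact sq_lt_wordLen n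
  have hn : n < 2 ^ w := lt_of_le_of_lt (by nlinarith) hn2
  obtain ⟨t, ht⟩ : ∃ t, t = (tab 30 0 2 (.sum 31 (.reg 0) (.cond (.reg 31) (.reg 30)
    (eqE (.arr 1 (.reg 31)) (.arr 1 (.reg 30)) (.const 1) (.const 0)) (.const 0)))).run w s :=
      ⟨_, rfl⟩
  have ht' := ht
  rw [run_tab w 30 0 2 _ s rfl] at ht'
  have htr : t.r = s.r := by rw [ht']
  have htm0 : t.m 0 = s.m 0 := by rw [ht']; rfl
  have htm1 : t.m 1 = s.m 1 := by rw [ht']; rfl
  have htm2 : ∀ v : Fin n, t.m 2 (v : ℕ) = (univ.filter fun y : Fin n =>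
    y < v ∧ s.m 1 (y : ℕ) = s.m 1 (v : ℕ)).card := by
    intro v
    rw [ht']
    simp only [Function.update_self]
    rw [h0, if_pos ⟨by omega, by exact_mod_cast v.2⟩]
    have h1 : (Expr.sum 31 (.reg 0) (.cond (.reg 31) (.reg 30)
        (eqE (.arr 1 (.reg 31)) (.arr 1 (.reg 30)) (.const 1) (.const 0)) (.const 0))).eval
        (s.setR 30 ((v : ℕ) : ℤ)) = ((univ.filter fun y : Fin n =>
        y < v ∧ s.m 1 (y : ℕ) = s.m 1 (v : ℕ)).card : ℤ) := by
      simp only [Expr.eval, eval_eqE, St.setR_r, St.setR_m]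
      norm_num only [if_true, if_false, h0]
      simp only [Int.toNat_natCast, Finset.sum_range]
      rw [card_filter]
      push_cast
      refine sum_congr rfl fun y _ => ?_
      by_cases hy : y < v
      · have : ((y : ℕ) : ℤ) < ((v : ℕ) : ℤ) := by exact_mod_cast hy
        rw [if_pos this]
        by_cases hq : s.m 1 ((y : ℕ) : ℤ) = s.m 1 ((v : ℕ) : ℤ)
        · rw [if_pos hq, if_pos ⟨hy, hq⟩]
        · rw [if_neg hq, if_neg (fun h => hq h.2)]
      · have : ¬ ((y : ℕ) : ℤ) < ((v : ℕ) : ℤ) := by exact_mod_cast hy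
        rw [if_neg this, if_neg (fun h => hy h.1)]
    rw [h1]
    refine emod_word hn (by positivity) ?_
    exact_mod_cast (card_le_univ _).trans (by simp)
  -- the two classes
  obtain ⟨A1, hA1⟩ : ∃ A1 : Finset (Fin n), A1 = univ.filter fun v : Fin n =>
    s.m 1 (v : ℕ) = 1 := ⟨_, rfl⟩
  obtain ⟨A2, hA2⟩ : ∃ A2 : Finset (Fin n), A2 = univ.filter fun v : Fin n =>
    s.m 1 (v : ℕ) = 2 := ⟨_, rfl⟩
  have hcompl : A1ᶜ = A2 := by
    ext v
    rw [mem_compl, hA1, hA2, mem_filter, mem_filter]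
    rcases hc v with h | h <;> simp [h]
  have hcompl' : A2ᶜ = A1 := by rw [← hcompl, compl_compl]
  have hev : ∀ (c : ℤ) (S : Finset (Fin n)) (t' : St), t'.r 0 = n → t'.m 1 = s.m 1 →
      (S = univ.filter fun v : Fin n => s.m 1 (v : ℕ) = c) →
      (Expr.sum 31 (.reg 0) (eqE (.arr 1 (.reg 31)) (.const c) (.const 1) (.const 0))).eval t' %
        2 ^ w = S.card := by
    intro c S t' h0' h1' hS
    have h1 : (Expr.sum 31 (.reg 0) (eqE (.arr 1 (.reg 31)) (.const c) (.const 1)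
        (.const 0))).eval t' = S.card := by
      simp only [Expr.eval, eval_eqE, St.setR_r, St.setR_m]
      norm_num only [if_true, if_false, h0', h1']
      simp only [Int.toNat_natCast, Finset.sum_range]
      rw [hS, card_filter]
      push_cast
      rfl
    rw [h1]
    refine emod_word hn (by positivity) ?_
    exact_mod_cast (card_le_univ _).trans (by simp)
  have hone : (1 : ℤ) % 2 ^ w = 1 := emod_word (N := 1) (by
    have : 0 < w := by rw [hw]; unfold wordLen; positivity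
    exact Nat.one_lt_two_pow this.ne') (by norm_num) (by norm_num)
  have htwo : (2 : ℤ) % 2 ^ w = 2 := emod_word (N := 2) (by
    have h1 : 1 < w := by
      rw [hw]; unfold wordLen
      have : 0 < (n + 2) ^ 4 := by positivity
      omega
    calc 2 = 2 ^ 1 := by norm_num
      _ < 2 ^ w := Nat.pow_lt_pow_right (by norm_num) h1) (by norm_num) (by norm_num)
  have hmod : ∀ S : Finset (Fin n), (S.card : ℤ) % 2 ^ w = S.card := fun S =>
    emod_word hn (by positivity) (by exact_mod_cast (card_le_univ _).trans (by simp))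
  obtain ⟨t1, ht1⟩ : ∃ t1, t1 = t.setR 34 (A1.card : ℤ) := ⟨_, rfl⟩
  obtain ⟨t2, ht2⟩ : ∃ t2, t2 = t1.setR 35 (A2.card : ℤ) := ⟨_, rfl⟩
  have hrun : sizesP.run w s = (Prog.ite (.reg 34) (.add (.reg 35) (.const 1))
    (seqs [.set 9 (.const 1), .set 3 (.reg 34), .set 4 (.reg 35)])
    (seqs [.set 9 (.const 2), .set 3 (.reg 35), .set 4 (.reg 34)])).run w t2 := by
    rw [ht2, ← hev 2 A2 t1 (by rw [ht1]; simp [htr, h0]) (by rw [ht1]; exact htm1) hA2, ht1,
      ← hev 1 A1 t (by rw [htr]; exact h0) htm1 hA1, ht]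
    rfl
  have h34 : t2.r 34 = A1.card := by rw [ht2, ht1]; simp
  have h35 : t2.r 35 = A2.card := by rw [ht2]; simp
  have h20 : t2.r 0 = n := by rw [ht2, ht1]; simp [htr, h0]
  have h2m : t2.m = t.m := by rw [ht2, ht1]; rfl
  by_cases hle : A1.card ≤ A2.card
  · refine ⟨A1, 1, ?_⟩
    have hr2 : sizesP.run w s = ((t2.setR 9 1).setR 3 (A1.card : ℤ)).setR 4 (A2.card : ℤ) := by
      rw [hrun]
      simp only [Prog.run, seqs, Expr.eval, St.setR_r, h34, h35, hone]
      rw [if_pos (by exact_mod_cast Nat.lt_succ_of_le hle)]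
      norm_num only [if_false, h34, h35, hmod]
    rw [hr2]
    exact {
      mem := fun v => by rw [hA1]; simp
      c12 := Or.inl rfl
      le := by rw [hcompl]; exact hle
      r0 := by simp [h20]
      r3 := by simp
      r4 := by rw [hcompl]; simp
      r9 := by simp
      m0 := by simp only [St.setR_m]; rw [h2m, htm0]
      m1 := by simp only [St.setR_m]; rw [h2m, htm1]
      m2 := fun v => by simp only [St.setR_m]; rw [h2m]; exact htm2 v }
  · refine ⟨A2, 2, ?_⟩
    have hr2 : sizesP.run w s = ((t2.setR 9 2).setR 3 (A2.card : ℤ)).setR 4 (A1.card : ℤ) := by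
      rw [hrun]
      simp only [Prog.run, seqs, Expr.eval, St.setR_r, h34, h35, htwo]
      rw [if_neg (by
        intro h
        exact hle (Nat.le_of_lt_succ (by exact_mod_cast h)))]
      norm_num only [if_false, h34, h35, hmod]
    rw [hr2]
    exact {
      mem := fun v => by rw [hA2]; simp
      c12 := Or.inr rfl
      le := by rw [hcompl']; omega
      r0 := by simp [h20]
      r3 := by simp
      r4 := by rw [hcompl']; simp
      r9 := by simp
      m0 := by simp only [St.setR_m]; rw [h2m, htm0]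
      m1 := by simp only [St.setR_m]; rw [h2m, htm1]
      m2 := fun v => by simp only [St.setR_m]; rw [h2m]; exact htm2 v }

/-- The entries of the adjacency matrix. -/
theorem adj_entry (n l : ℕ) (G : SimpleGraph (Fin n)) [DecidableRel G.Adj] (v v' : Fin n) :
    (initSt n l G).m 0 ((v : ℕ) * (n : ℤ) + (v' : ℕ)) = if G.Adj v v' then 1 else 0 := by
  have h : (∃ u u' : Fin n, ((v : ℕ) : ℤ) * n + ((v' : ℕ) : ℤ) =
      ((u : ℕ) : ℤ) * n + ((u' : ℕ) : ℤ) ∧ G.Adj u u') ↔ G.Adj v v' := by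
    constructor
    · rintro ⟨u, u', he, ha⟩
      have he' : (v : ℕ) * n + v' = (u : ℕ) * n + u' := by exact_mod_cast he
      have hn : 0 < n := lt_of_le_of_lt (Nat.zero_le _) v.2
      have h1 : (v : ℕ) = u := by
        have : ((v : ℕ) * n + v') / n = ((u : ℕ) * n + u') / n := by rw [he']
        rwa [mul_comm (v : ℕ) n, mul_comm (u : ℕ) n, Nat.mul_add_div hn, Nat.mul_add_div hn,
          Nat.div_eq_of_lt v'.2, Nat.div_eq_of_lt u'.2, Nat.add_zero, Nat.add_zero] at this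
      have h2 : (v' : ℕ) = u' := by
        rw [h1] at he'
        omega
      rw [Fin.ext h1, Fin.ext h2]
      exact ha
    · intro ha
      exact ⟨v, v', rfl, ha⟩
  simp only [initSt, if_true]
  by_cases ha : G.Adj v v'
  · rw [if_pos ha, if_pos (h.2 ha)]
  · rw [if_neg ha, if_neg (fun hh => ha (h.1 hh))]

/-- SIZEMAT -/
theorem sizeMat : SizeMatStatement := by
  intro w n l G _ s hw h0 hm0 hc hadj
  obtain ⟨A, c, hA⟩ := sizes_run w n s hw h0 hc
  obtain ⟨t, ht⟩ : ∃ t, t = sizesP.run w s := ⟨_, rfl⟩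
  rw [← ht] at hA ⊢
  have hsum : A.card + Aᶜ.card = n := by
    simp
  obtain ⟨a, ha⟩ : ∃ a, A.card = a := ⟨_, rfl⟩
  obtain ⟨b, hb⟩ : ∃ b, Aᶜ.card = b := ⟨_, rfl⟩
  rw [ha, hb] at hsum
  have hn2 : n ^ 2 < 2 ^ w := by rw [hw]; exact sq_lt_wordLen n
  have hval : ∀ v v' : Fin n, (v ∈ A ↔ v' ∈ A) ↔
      s.m 1 ((v : ℕ) : ℤ) = s.m 1 ((v' : ℕ) : ℤ) := by
    intro v v'
    rw [hA.mem, hA.mem]
    rcases hA.c12 with h | h <;> rcases hc v with h1 | h1 <;> rcases hc v' with h2 | h2 <;>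
      simp [h, h1, h2]
  have hrkA : ∀ v ∈ A, t.m 2 ((v : ℕ) : ℤ) = rk A v := by
    intro v hv
    rw [hA.m2 v]
    unfold rk
    congr 2
    ext y
    simp only [mem_filter, mem_univ, true_and]
    rw [← hval y v]
    constructor
    · rintro ⟨h1, h2⟩; exact ⟨h2.2 hv, h1⟩
    · rintro ⟨h1, h2⟩; exact ⟨h2, fun _ => hv, fun _ => h1⟩
  have hrkB : ∀ v, v ∉ A → t.m 2 ((v : ℕ) : ℤ) = rk Aᶜ v := by
    intro v hv
    rw [hA.m2 v]
    unfold rk
    congr 2
    ext y
    simp only [mem_filter, mem_univ, true_and, mem_compl]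
    rw [← hval y v]
    constructor
    · rintro ⟨h1, h2⟩; exact ⟨fun h => hv (h2.1 h), h1⟩
    · rintro ⟨h1, h2⟩; exact ⟨h2, fun h => absurd h h1, fun h => absurd h hv⟩
  have hindep : ∀ v v' : Fin n, (v ∈ A ↔ v' ∈ A) → ¬ G.Adj v v' := fun v v' h ha' =>
    hadj v v' ha' ((hval v v').1 h)
  refine ⟨a, b, finSumEquivOfFinset ha hb, ?_, hsum, ?_, ?_, ?_, ?_, ?_⟩
  · rw [← ha, ← hb]; exact hA.le
  · intro i i'
    rw [finSumEquivOfFinset_inl, finSumEquivOfFinset_inl]
    exact hindep _ _ (iff_of_true (orderEmbOfFin_mem _ _ _) (orderEmbOfFin_mem _ _ _))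
  · intro i i'
    rw [finSumEquivOfFinset_inr, finSumEquivOfFinset_inr]
    exact hindep _ _ (iff_of_false (mem_compl.1 (orderEmbOfFin_mem _ _ _))
      (mem_compl.1 (orderEmbOfFin_mem _ _ _)))
  · rw [hA.r3, ha]
  · rw [hA.r4, hb]
  · intro i h
    obtain ⟨t', ht'⟩ : ∃ t', t' = t.setR 16 (((a * b : ℕ) : ℤ)) := ⟨_, rfl⟩
    have hrun : matP.run w t = (tab 30 16 3 matE).run w t' := by
      have h16 : (Expr.mul (.reg 3) (.reg 4)).eval t % 2 ^ w = ((a * b : ℕ) : ℤ) := by
        simp only [Expr.eval, hA.r3, hA.r4, ha, hb]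
        push_cast
        refine emod_word hn2 (by positivity) ?_
        have : a * b ≤ n ^ 2 := by rw [← hsum]; nlinarith
        exact_mod_cast this
      rw [ht', ← h16]
      rfl
    rw [hrun, run_tab w 30 16 3 matE t' rfl]
    simp only [Function.update_self]
    have hb0 : 0 < b := lt_of_le_of_lt (Nat.zero_le _) h.2
    have hidx : (i : ℕ) * b + (h : ℕ) < a * b := by
      calc (i : ℕ) * b + (h : ℕ) < (i : ℕ) * b + b := by have := h.2; omega
        _ = ((i : ℕ) + 1) * b := by ring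
        _ ≤ a * b := Nat.mul_le_mul_right _ i.2
    have hr16 : t'.r 16 = ((a * b : ℕ) : ℤ) := by rw [ht']; simp
    rw [hr16, if_pos ⟨by positivity, by exact_mod_cast hidx⟩]
    have hdiv : (((i : ℕ) : ℤ) * (b : ℤ) + ((h : ℕ) : ℤ)) / (b : ℤ) = ((i : ℕ) : ℤ) := by
      have : ((i : ℕ) * b + (h : ℕ)) / b = i := by
        rw [mul_comm, Nat.mul_add_div hb0, Nat.div_eq_of_lt h.2, Nat.add_zero]
      exact_mod_cast congrArg (fun x : ℕ => (x : ℤ)) this
    have hmodb : (((i : ℕ) : ℤ) * (b : ℤ) + ((h : ℕ) : ℤ)) % (b : ℤ) = ((h : ℕ) : ℤ) := by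
      have : ((i : ℕ) * b + (h : ℕ)) % b = h := by
        rw [mul_comm, Nat.mul_add_mod, Nat.mod_eq_of_lt h.2]
      exact_mod_cast congrArg (fun x : ℕ => (x : ℤ)) this
    rw [finSumEquivOfFinset_inl, finSumEquivOfFinset_inr]
    have hev : matE.eval (t'.setR 30 (((i : ℕ) : ℤ) * (b : ℤ) + ((h : ℕ) : ℤ))) =
        if G.Adj (A.orderEmbOfFin ha i) (Aᶜ.orderEmbOfFin hb h) then 1 else 0 := by
      have hr0 : t'.r 0 = n := by rw [ht']; simp [hA.r0]
      have hr4 : t'.r 4 = b := by rw [ht']; simp [hA.r4, hb]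
      have hr9 : t'.r 9 = c := by rw [ht']; simp [hA.r9]
      have hm0' : t'.m 0 = (initSt n l G).m 0 := by
        rw [ht']; simp only [St.setR_m]; rw [hA.m0, hm0]
      have hm1' : t'.m 1 = s.m 1 := by rw [ht']; simp only [St.setR_m]; rw [hA.m1]
      have hm2' : t'.m 2 = t.m 2 := by rw [ht']; rfl
      simp only [matE, Expr.eval, eval_eqE, St.setR_r, St.setR_m]
      norm_num only [if_true, if_false, hr0, hr4, hr9, hm0', hm1', hm2', hdiv, hmodb]
      simp only [Int.toNat_natCast, Finset.sum_range, adj_entry, ← hA.mem]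
      rw [Finset.sum_eq_single (A.orderEmbOfFin ha i), Finset.sum_eq_single
        (Aᶜ.orderEmbOfFin hb h)]
      · have h1 := (eq_emb_iff A ha i _).1 rfl
        have h2 := (eq_emb_iff Aᶜ hb h _).1 rfl
        rw [if_pos h1.1, hrkA _ h1.1, h1.2, if_pos rfl, if_neg (mem_compl.1 h2.1),
          hrkB _ (mem_compl.1 h2.1), h2.2, if_pos rfl]
      · intro y _ hy
        by_cases hyA : y ∈ A
        · rw [if_pos hyA]
          split_ifs <;> rfl
        · have h2 : rk Aᶜ y ≠ h := fun hh =>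
            hy ((eq_emb_iff Aᶜ hb h y).2 ⟨mem_compl.2 hyA, hh⟩)
          have h3 : ¬ (t.m 2 ((y : ℕ) : ℤ) = ((h : ℕ) : ℤ)) := by
            rw [hrkB y hyA]
            exact fun hh => h2 (by exact_mod_cast hh)
          rw [if_neg h3]
          split_ifs <;> rfl
      · intro hn'; exact absurd (mem_univ _) hn'
      · intro x _ hx
        refine Finset.sum_eq_zero fun y _ => ?_
        by_cases hxA : x ∈ A
        · have h2 : rk A x ≠ i := fun hh => hx ((eq_emb_iff A ha i x).2 ⟨hxA, hh⟩)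
          have h3 : ¬ (t.m 2 ((x : ℕ) : ℤ) = ((i : ℕ) : ℤ)) := by
            rw [hrkA x hxA]
            exact fun hh => h2 (by exact_mod_cast hh)
          rw [if_pos hxA, if_neg h3]
        · rw [if_neg hxA]
      · intro hn'; exact absurd (mem_univ _) hn'
    rw [hev]
    have hw1 : 1 < 2 ^ w := by
      have : 0 < w := by rw [hw]; unfold wordLen; positivity
      exact Nat.one_lt_two_pow this.ne'
    split_ifs
    · exact emod_word hw1 (by norm_num) (by norm_num)
    · simp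

end Pool.Agent.Lib.MP_b2ebfc_lc.H65
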